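import Mathlib

set_option autoImplicit false

open Filter Topology

namespace Pool.Agent.Results.MP_ba0d78_gt

/-- `C_p(X)`: continuous real-valued functions with the topology of pointwise convergence (the
subspace topology from the product `X → ℝ`) -/
abbrev Cp (X : Type) [TopologicalSpace X] : Type := {f : X → ℝ // Continuous f}

/-- `A` is countably compact in `Z`: each infinite subset of `A` has an accumulation point in
`Z` -/
def CountablyCompactIn {Z : Type} [TopologicalSpace Z] (A : Set Z) : Prop :=
  ∀ B : Set Z, B ⊆ A → B.Infinite → ∃ z : Z, AccPt z (𝓟 B)

/-- `Z` is a g-space: the closure of `A` is compact whenever `A` is countably compact in `Z` -/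
def IsGSpace (Z : Type) [TopologicalSpace Z] : Prop :=
  ∀ A : Set Z, CountablyCompactIn A → IsCompact (closure A)

/-- `Z` is isocompact: each closed countably compact subspace is compact -/
def IsIsocompact (Z : Type) [TopologicalSpace Z] : Prop :=
  ∀ F : Set Z, IsClosed F → IsCountablyCompact F → IsCompact F

end Pool.Agent.Results.MP_ba0d78_gt
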