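import Mathlib
import Pool.Agent.Results.MP_ba0d78_gt.Defs
import Pool.Agent.H13.Iso.Top

set_option autoImplicit false

namespace Pool.Agent.Results.MP_ba0d78_gt.IsocompactNotG

open Pool.Agent.Results.MP_ba0d78_gt

/-- In ZFC there is a Tychonoff space `X` such that `C_p(X)` is isocompact but `C_p(X)` is not a
g-space. -/
theorem result : ∃ (X : Type) (_ : TopologicalSpace X), T35Space X ∧
    IsIsocompact (Cp X) ∧ ¬ IsGSpace (Cp X) :=
  ⟨H13.Iso.XX, inferInstance, inferInstance, H13.Iso.iso, H13.Iso.not_g⟩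

end Pool.Agent.Results.MP_ba0d78_gt.IsocompactNotG
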